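import Pool.Agent.H69.LQ.Lib

/-!
# LQ, row SM: functions supported in a set of small measure
-/

set_option autoImplicit false

open MeasureTheory Metric Set
open scoped ENNReal
open Pool.Agent.H85.LK (E adm lam Ann)
open Pool.Agent.H69.LQ

namespace Pool.Agent.H91.LQ

theorem smul_mem {N : ℕ} {O : Set (E N)} {v : E N → ℝ} (h1 : ContDiff ℝ (⊤ : ℕ∞) v)
    (h2 : HasCompactSupport v) (h3 : tsupport v ⊆ O) {c : ℝ}
    (hc : ∫ x, ‖fderiv ℝ v x‖ ^ 2 = c * ∫ x, v x ^ 2) (k : ℝ) :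
    ContDiff ℝ (⊤ : ℕ∞) (k • v) ∧ HasCompactSupport (k • v) ∧ tsupport (k • v) ⊆ O ∧
      ∫ x, ‖fderiv ℝ (k • v) x‖ ^ 2 ≤ c * ∫ x, (k • v) x ^ 2 := by
  refine ⟨h1.const_smul k, ?_, ?_, ?_⟩
  · exact h2.mono (Function.support_const_smul_subset k v)
  · exact (closure_mono (Function.support_const_smul_subset k v)).trans h3
  · have hd : Differentiable ℝ v := h1.differentiable (by simp)
    have e1 : ∀ x, ‖fderiv ℝ (k • v) x‖ ^ 2 = k ^ 2 * ‖fderiv ℝ v x‖ ^ 2 := by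
      intro x
      rw [fderiv_const_smul (hd x), norm_smul, mul_pow, Real.norm_eq_abs, sq_abs]
    have e2 : ∀ x, (k • v) x ^ 2 = k ^ 2 * v x ^ 2 := by
      intro x
      rw [Pi.smul_apply, smul_eq_mul, mul_pow]
    simp_rw [e1, e2]
    rw [integral_const_mul, integral_const_mul, hc]
    exact le_of_eq (by ring)

theorem pf_SM (hFK : Pool.Agent.H85.LK.T_FK) (hPI : Pool.Agent.H85.LK.T_PI) : T_SM := by
  intro N hN ε hε
  have hΛ : 0 < lam N 1 (ball (0 : E N) 1) := hPI N (by omega)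
  have hpos : 0 < ε * lam N 1 (ball (0 : E N) 1) := mul_pos hε hΛ
  have hρ : 0 < Real.sqrt (ε * lam N 1 (ball (0 : E N) 1)) := Real.sqrt_pos.2 hpos
  have hρ2 : Real.sqrt (ε * lam N 1 (ball (0 : E N) 1)) ^ 2 =
      ε * lam N 1 (ball (0 : E N) 1) := Real.sq_sqrt hpos.le
  have hV0 : volume (ball (0 : E N) (Real.sqrt (ε * lam N 1 (ball (0 : E N) 1)))) ≠ 0 :=
    (measure_ball_pos volume _ hρ).ne'
  have hV1 : volume (ball (0 : E N) (Real.sqrt (ε * lam N 1 (ball (0 : E N) 1)))) ≠ ⊤ :=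
    measure_ball_lt_top.ne
  refine ⟨_, ENNReal.toReal_pos hV0 hV1, ?_⟩
  intro O v hO hvol h1 h2 h3
  rw [ENNReal.ofReal_toReal hV1] at hvol
  by_cases hv : v = 0
  · subst hv
    simp
  · have hI : 0 < ∫ x, v x ^ 2 := by
      obtain ⟨x0, hx0⟩ : ∃ x, v x ≠ 0 := by
        by_contra hcon
        push Not at hcon
        exact hv (funext hcon)
      refine Continuous.integral_pos_of_hasCompactSupport_nonneg_nonzero
        (h1.continuous.pow 2) ?_ (fun x => sq_nonneg (v x)) (x := x0) (pow_ne_zero 2 hx0)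
      exact h2.comp_left (g := fun t : ℝ => t ^ 2) (by simp)
    have hadm : (∫ x, ‖fderiv ℝ v x‖ ^ 2) / (∫ x, v x ^ 2) ∈ adm N 1 O := by
      refine ⟨Submodule.span ℝ {v}, finrank_span_singleton hv, ?_⟩
      intro w hw
      obtain ⟨k, rfl⟩ := Submodule.mem_span_singleton.1 hw
      exact smul_mem h1 h2 h3 (by field_simp) k
    have h := hFK N 1 _ _ O (by omega) le_rfl hρ hO hvol hadm
    rw [hρ2, div_le_div_iff₀ hpos hI] at h
    have h4 : lam N 1 (ball (0 : E N) 1) * (∫ x, v x ^ 2) ≤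
        lam N 1 (ball (0 : E N) 1) * (ε * ∫ x, ‖fderiv ℝ v x‖ ^ 2) := by
      calc lam N 1 (ball (0 : E N) 1) * (∫ x, v x ^ 2) ≤
          (∫ x, ‖fderiv ℝ v x‖ ^ 2) * (ε * lam N 1 (ball (0 : E N) 1)) := h
        _ = _ := by ring
    exact le_of_mul_le_mul_left h4 hΛ

end Pool.Agent.H91.LQ
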