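import Pool.Agent.H69.LQ.Lib

/-!
# LQ, row U1: the quadratic form in terms of the function on the sphere
-/

set_option autoImplicit false

open MeasureTheory Metric Set
open scoped ENNReal
open Pool.Agent.H85.LK (E adm lam Ann)
open Pool.Agent.H69.LQ

namespace Pool.Agent.H91.LQ

theorem core_U1 (n D C s r δ d₂ d₃ a2 a3 b2 b3 w2 w3 m Z T W e q : ℝ) (hn : 0 ≤ n) (hs : 0 < s)
    (hs1 : s ≤ 1) (hr : 1 ≤ r) (hC : 0 < C) (hδ : 0 < δ) (h2 : -n - s ≤ d₂) (h3 : D - s ≤ d₃)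
    (ha2 : 0 ≤ a2) (ha3 : 0 ≤ a3) (hb2 : 0 ≤ b2) (hb3 : 0 ≤ b3) (hw2 : 0 ≤ w2) (hw3 : 0 ≤ w3)
    (hq2 : |w2 - a2| ≤ s * a2 + (1 + r) * b2) (hq3 : |w3 - a3| ≤ s * a3 + (1 + r) * b3)
    (hZ2 : a2 + a3 ≤ Z) (hT2 : b2 + b3 ≤ T) (hm : m ≤ T) (hT : T ≤ 6 * δ * e)
    (hW : W ≤ 2 * (Z + T)) (hCs : 2 * C * δ ≤ s) (hq : 0 ≤ q)
    (hK : 12 * δ * (2 * (n + 1) * r + 2 * (|D| + 1) * r + 1 + q) ≤ 1) :
    -n * a2 + D * a3 + q * m - (2 * n + 2 * |D| + 6) * s * Z ≤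
      d₂ * w2 + d₃ * w3 + 1 / 2 * e - C * δ * W := by
  have hD : 0 ≤ |D| := abs_nonneg D
  have hZ : 0 ≤ Z := by linarith
  have hT0 : 0 ≤ T := by linarith
  have i1 : -(n + s) * w2 ≤ d₂ * w2 := mul_le_mul_of_nonneg_right (by linarith) hw2
  have i2 : w2 ≤ (1 + s) * a2 + (1 + r) * b2 := by
    have := (abs_le.1 hq2).2
    linarith
  have i3 : (n + s) * w2 ≤ n * a2 + (n + 2) * s * a2 + 2 * (n + 1) * r * b2 := by
    have j1 : (n + s) * w2 ≤ (n + s) * ((1 + s) * a2 + (1 + r) * b2) :=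
      mul_le_mul_of_nonneg_left i2 (by linarith)
    have j2 : (n + s) * (1 + s) ≤ n + (n + 2) * s := by nlinarith
    have j3 : (n + s) * (1 + r) ≤ 2 * (n + 1) * r := by nlinarith
    have j4 : (n + s) * (1 + s) * a2 ≤ (n + (n + 2) * s) * a2 :=
      mul_le_mul_of_nonneg_right j2 ha2
    have j5 : (n + s) * (1 + r) * b2 ≤ 2 * (n + 1) * r * b2 :=
      mul_le_mul_of_nonneg_right j3 hb2
    calc (n + s) * w2 ≤ (n + s) * ((1 + s) * a2 + (1 + r) * b2) := j1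
      _ = (n + s) * (1 + s) * a2 + (n + s) * (1 + r) * b2 := by ring
      _ ≤ (n + (n + 2) * s) * a2 + 2 * (n + 1) * r * b2 := add_le_add j4 j5
      _ = _ := by ring
  have i4 : D * a3 - |D| * (s * a3) - 2 * |D| * r * b3 ≤ D * w3 := by
    have j1 : |D * (w3 - a3)| ≤ |D| * (s * a3 + (1 + r) * b3) := by
      rw [abs_mul]
      exact mul_le_mul_of_nonneg_left hq3 hD
    have j2 := (abs_le.1 j1).1
    have j3 : |D| * ((1 + r) * b3) ≤ |D| * (2 * r * b3) :=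
      mul_le_mul_of_nonneg_left (mul_le_mul_of_nonneg_right (by linarith) hb3) hD
    nlinarith
  have i5 : s * w3 ≤ 2 * s * a3 + 2 * r * b3 := by
    have j0 : w3 ≤ (1 + s) * a3 + (1 + r) * b3 := by
      have := (abs_le.1 hq3).2
      linarith
    have j1 : s * w3 ≤ s * ((1 + s) * a3 + (1 + r) * b3) := mul_le_mul_of_nonneg_left j0 hs.le
    have j2 : s * ((1 + s) * a3) ≤ s * (2 * a3) :=
      mul_le_mul_of_nonneg_left (mul_le_mul_of_nonneg_right (by linarith) ha3) hs.le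
    have j3 : s * ((1 + r) * b3) ≤ 1 * ((1 + r) * b3) :=
      mul_le_mul_of_nonneg_right hs1 (mul_nonneg (by linarith) hb3)
    have j4 : (1 + r) * b3 ≤ 2 * r * b3 := mul_le_mul_of_nonneg_right (by linarith) hb3
    linarith
  have i6 : (D - s) * w3 ≤ d₃ * w3 := mul_le_mul_of_nonneg_right h3 hw3
  have i7 : C * δ * W ≤ s * Z + T := by
    have j1 : C * δ * W ≤ C * δ * (2 * (Z + T)) :=
      mul_le_mul_of_nonneg_left hW (by positivity)
    have j2 : 2 * C * δ * (Z + T) ≤ s * (Z + T) := mul_le_mul_of_nonneg_right hCs (by linarith)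
    have j3 : s * T ≤ 1 * T := mul_le_mul_of_nonneg_right hs1 hT0
    linarith
  have i8 : (2 * (n + 1) * r + 2 * (|D| + 1) * r + 1 + q) * T ≤ 1 / 2 * e := by
    have j1 : 12 * δ * (2 * (n + 1) * r + 2 * (|D| + 1) * r + 1 + q) * T ≤ 1 * T :=
      mul_le_mul_of_nonneg_right hK hT0
    have j2 : 12 * δ * ((2 * (n + 1) * r + 2 * (|D| + 1) * r + 1 + q) * T) ≤
        12 * δ * (1 / 2 * e) := by linarith
    exact le_of_mul_le_mul_left j2 (by positivity)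
  have i9 : q * m ≤ q * T := mul_le_mul_of_nonneg_left hm hq
  have i10 : 2 * (n + 1) * r * b2 ≤ 2 * (n + 1) * r * T :=
    mul_le_mul_of_nonneg_left (by linarith) (by positivity)
  have i11 : 2 * (|D| + 1) * r * b3 ≤ 2 * (|D| + 1) * r * T :=
    mul_le_mul_of_nonneg_left (by linarith) (by positivity)
  have i12 : (n + 2) * s * a2 ≤ (n + 2) * s * Z :=
    mul_le_mul_of_nonneg_left (by linarith) (by positivity)
  have i13 : (|D| + 2) * s * a3 ≤ (|D| + 2) * s * Z :=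
    mul_le_mul_of_nonneg_left (by linarith) (by positivity)
  have i14 : 0 ≤ (n + |D| + 1) * s * Z := by positivity
  linarith

theorem n0_nn {N : ℕ} (F : Sp N → ℝ) : 0 ≤ n0 F := sq_nonneg _

theorem n1_nn {N : ℕ} (F : Sp N → ℝ) : 0 ≤ n1 F :=
  div_nonneg (Finset.sum_nonneg fun _ _ => sq_nonneg _) (Nat.cast_nonneg _)

theorem n2_nn {N : ℕ} (F : Sp N → ℝ) : 0 ≤ n2 F :=
  mul_nonneg (by positivity) (Finset.sum_nonneg fun _ _ => Finset.sum_nonneg fun _ _ => sq_nonneg _)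

theorem n3_nn {N : ℕ} (F : Sp N → ℝ) : 0 ≤ n3 F := av_sq_nonneg _

theorem pf_U1 (hPY : T_PY) (hQU : T_QU) : T_U1 := by
  intro N D hN C s hC hs hs1
  set K : ℝ := 2 * ((N : ℝ) + 1) * (1 / s) + 2 * (|D| + 1) * (1 / s) + 1 with hKdef
  have hK : 0 < K := by positivity
  refine ⟨min (1 / 576) (min (1 / (24 * K)) (s / (2 * C))), by positivity, ?_⟩
  intro δ d₂ d₃ ω z e hδ hδ0 h2 h3 hω hz he hτe hort
  have hδ1 : δ ≤ 1 / 576 := hδ0.trans (min_le_left _ _)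
  have hδ2 : δ ≤ 1 / (24 * K) := (hδ0.trans (min_le_right _ _)).trans (min_le_left _ _)
  have hδ3 : δ ≤ s / (2 * C) := (hδ0.trans (min_le_right _ _)).trans (min_le_right _ _)
  have hτ : BM (fun θ => ω θ - z θ) := hω.sub hz
  have hωe : (fun θ => z θ + (ω θ - z θ)) = ω := by
    funext θ
    ring
  obtain ⟨-, -, q2, q3⟩ := hQU N z (fun θ => ω θ - z θ) s hN hz hτ hs
  rw [hωe] at q2 q3
  obtain ⟨pz, -⟩ := hPY N z hN hz
  obtain ⟨pτ, -⟩ := hPY N (fun θ => ω θ - z θ) hN hτ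
  -- the parts of degree one
  have hc : ∀ j, c1 z j ^ 2 = c1 (fun θ => ω θ - z θ) j ^ 2 := by
    intro j
    have e1 : av (fun θ => (ω θ - z θ) * (θ : E N) j) =
        av (fun θ => ω θ * (θ : E N) j) - av (fun θ => z θ * (θ : E N) j) := by
      rw [← av_sub (hω.mul (BM_coord j)) (hz.mul (BM_coord j))]
      congr 1
      funext θ
      ring
    unfold c1
    rw [e1, hort j]
    ring
  have hn1 : n1 z = n1 (fun θ => ω θ - z θ) := by
    unfold n1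
    rw [Finset.sum_congr rfl fun j _ => hc j]
  have hT : av (fun θ => (ω θ - z θ) ^ 2) ≤ 6 * δ * av e := by
    rw [← av_const_mul]
    exact av_mono (hτ.pow 2) (he.const_mul _) hτe
  have hW : av (fun θ => ω θ ^ 2) ≤
      2 * (av (fun θ => z θ ^ 2) + av (fun θ => (ω θ - z θ) ^ 2)) := by
    rw [← av_add (hz.pow 2) (hτ.pow 2), ← av_const_mul]
    refine av_mono (hω.pow 2) (((hz.pow 2).add (hτ.pow 2)).const_mul _) fun θ => ?_
    nlinarith [sq_nonneg (z θ - (ω θ - z θ))]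
  have hr : 1 ≤ 1 / s := by
    rw [le_div_iff₀ hs]
    linarith
  have hsq : δ ^ (1 / 2 : ℝ) = Real.sqrt δ := (Real.sqrt_eq_rpow δ).symm
  have hsqpos : 0 < Real.sqrt δ := Real.sqrt_pos.2 hδ
  have hsq2 : Real.sqrt δ * Real.sqrt δ = δ := Real.mul_self_sqrt hδ.le
  have hsq3 : 24 * Real.sqrt δ ≤ 1 := by
    by_contra hcon
    push Not at hcon
    nlinarith
  have hq : 24 * δ * (1 / δ ^ (1 / 2 : ℝ)) ≤ 1 := by
    rw [hsq]
    have : 24 * δ * (1 / Real.sqrt δ) = 24 * Real.sqrt δ := by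
      rw [mul_one_div, div_eq_iff hsqpos.ne']
      linarith
    rw [this]
    exact hsq3
  have hK2 : 24 * δ * K ≤ 1 := by
    rw [le_div_iff₀ (by positivity)] at hδ2
    linarith
  have hCs : 2 * C * δ ≤ s := by
    rw [le_div_iff₀ (by positivity)] at hδ3
    linarith
  have hq0 : 0 ≤ 1 / δ ^ (1 / 2 : ℝ) := by positivity
  refine core_U1 N D C s (1 / s) δ d₂ d₃ (n2 z) (n3 z) (n2 fun θ => ω θ - z θ)
    (n3 fun θ => ω θ - z θ) (n2 ω) (n3 ω) (n1 z) _ (av fun θ => (ω θ - z θ) ^ 2) _ (av e)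
    (1 / δ ^ (1 / 2 : ℝ)) (Nat.cast_nonneg N) hs hs1 hr hC hδ h2 h3 (n2_nn _) (n3_nn _)
    (n2_nn _) (n3_nn _) (n2_nn _) (n3_nn _) q2 q3 ?_ ?_ ?_ hT hW hCs hq0 ?_
  · have := n0_nn z
    have := n1_nn z
    linarith
  · have := n0_nn fun θ => ω θ - z θ
    have := n1_nn fun θ => ω θ - z θ
    linarith
  · rw [hn1, pτ]
    have := n0_nn fun θ => ω θ - z θ
    have := n2_nn fun θ => ω θ - z θ
    have := n3_nn fun θ => ω θ - z θ
    linarith
  · rw [hKdef] at hK2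
    linarith

end Pool.Agent.H91.LQ
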